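import Pool.Agent.H34.FQ.Targets

/-!
# Row PO0 of hfq_modules: a special form
-/

set_option autoImplicit false

open Finset Pool.Agent.H32.RQ Pool.Agent.H34.FQ

namespace Pool.Agent.H80.HFQ

/-! ### Expansions and casts -/

theorem qf_shift {R : Type} [CommRing R] {s : ℕ} (f : Mon s → R) (x : Fin s → R) (j : Fin s)
    (t : R) : qf f (fun i => x i + if i = j then t else 0) =
      qf f x + t * dq f x j + t ^ 2 * ∑ p : Mon s, f p *
        ((if p.1.1 = j then 1 else 0) * (if p.1.2 = j then 1 else 0)) := by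
  unfold qf dq
  rw [Finset.mul_sum, Finset.mul_sum, ← Finset.sum_add_distrib, ← Finset.sum_add_distrib]
  refine Finset.sum_congr rfl fun p _ => ?_
  beta_reduce
  split_ifs <;> ring

/-- the derivative from the values -/
theorem two_dq {R : Type} [CommRing R] {s : ℕ} (f : Mon s → R) (x : Fin s → R) (j : Fin s) :
    2 * dq f x j = qf f (fun i => x i + if i = j then 1 else 0) -
      qf f (fun i => x i + if i = j then -1 else 0) := by
  rw [qf_shift, qf_shift]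
  ring

theorem qf_cast {s : ℕ} (f : Mon s → ℤ) (x : Fin s → ℤ) :
    ((qf f x : ℤ) : ℝ) = qf (cf ℝ f) (fun i => (x i : ℝ)) := by
  unfold qf cf
  push_cast
  rfl

theorem dq_cast {s : ℕ} (f : Mon s → ℤ) (x : Fin s → ℤ) (j : Fin s) :
    ((dq f x j : ℤ) : ℝ) = dq (cf ℝ f) (fun i => (x i : ℝ)) j := by
  unfold dq cf
  push_cast
  rfl

theorem bl_cast {s : ℕ} (f : Mon s → ℤ) (x y : Fin s → ℤ) :
    ((bl f x y : ℤ) : ℝ) = bl (cf ℝ f) (fun i => (x i : ℝ)) (fun i => (y i : ℝ)) := by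
  unfold bl
  rw [Int.cast_sum]
  refine Finset.sum_congr rfl fun i _ => ?_
  rw [Int.cast_mul, dq_cast]

theorem pb_cast {s : ℕ} (T : Matrix (Fin s) (Fin s) ℤ) (f : Mon s → ℤ) :
    cf ℝ (pb T f) = pb (fun i j => (T i j : ℝ)) (cf ℝ f) := by
  funext p
  unfold cf pb
  by_cases h : p.1.1 = p.1.2
  · rw [if_pos h, if_pos h]
    exact qf_cast f _
  · rw [if_neg h, if_neg h]
    exact bl_cast f _ _

theorem cf_int {s : ℕ} (f : Mon s → ℤ) : cf ℤ f = f := by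
  funext p
  exact Int.cast_id

/-- the value of the pulled back form over the reals -/
theorem qf_real (hPBK : T_PBK) {s : ℕ} (T : Matrix (Fin s) (Fin s) ℤ) (f : Mon s → ℤ)
    (w : Fin s → ℝ) : qf (cf ℝ f) (mv T w) = qf (cf ℝ (pb T f)) w := by
  rw [pb_cast]
  exact ((hPBK ℝ s (fun i j => (T i j : ℝ)) (cf ℝ f) w).1).symm

/-- the value of the pulled back form over the integers -/
theorem qf_int (hPBK : T_PBK) {s : ℕ} (T : Matrix (Fin s) (Fin s) ℤ) (f : Mon s → ℤ)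
    (w : Fin s → ℤ) : qf (pb T f) w = qf (cf ℤ f) (mv T w) := by
  rw [cf_int, (hPBK ℤ s T f w).1]
  rfl

/-! ### The form `c v_0` -/

/-- the index of the monomial `c v_0` -/
def p02 (m : ℕ) : Mon (m + 1 + 2) := ⟨(0, (0 : Fin (m + 1)).succ.succ), Fin.zero_le _⟩

/-- the form `c v_0` -/
def g0 (m : ℕ) : Mon (m + 1 + 2) → ℤ := fun p => if p = p02 m then 1 else 0

theorem qf_g0 (m : ℕ) (R : Type) [CommRing R] (x : Fin (m + 1 + 2) → R) :
    qf (cf R (g0 m)) x = x 0 * x (0 : Fin (m + 1)).succ.succ := by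
  unfold qf cf g0
  rw [Finset.sum_eq_single (p02 m)]
  · rw [if_pos rfl, Int.cast_one, one_mul]
    rfl
  · intro p _ hp
    rw [if_neg hp, Int.cast_zero, zero_mul]
  · intro h
    exact absurd (Finset.mem_univ _) h

theorem dq_g0 (m : ℕ) (x : Fin (m + 1 + 2) → ℤ) (j : Fin (m + 1 + 2)) :
    dq (g0 m) x j = (if (0 : Fin (m + 1 + 2)) = j then x (0 : Fin (m + 1)).succ.succ else 0) +
      (if (0 : Fin (m + 1)).succ.succ = j then x 0 else 0) := by
  unfold dq g0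
  rw [Finset.sum_eq_single (p02 m)]
  · rw [if_pos rfl, one_mul]
    rfl
  · intro p _ hp
    rw [if_neg hp, zero_mul]
  · intro h
    exact absurd (Finset.mem_univ _) h

theorem pt_two {R : Type} (m : ℕ) (c y : R) (v : Fin (m + 1) → R) :
    pt c y v (0 : Fin (m + 1)).succ.succ = v 0 := rfl

theorem pt_zero {R : Type} (n : ℕ) (c y : R) (v : Fin n → R) : pt c y v 0 = c := rfl

/-- the form in the chart -/
theorem gG_special (hPBK : T_PBK) (m : ℕ) {F : Mon (m + 1 + 2) → ℤ} (N : NF F)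
    (f₀ : Mon (m + 1 + 2) → ℤ) (hf₀ : pb N.T f₀ = g0 m) (u : Fin (m + 1) → ℝ) :
    gG N (cf ℝ f₀) 1 u = (N.mu : ℝ) ^ 2 * u 0 := by
  unfold gG xt
  rw [qf_real hPBK, hf₀, qf_g0, pt_two, pt_zero]
  ring

/-- the value in the chart of a form which is close to `a f₀` -/
theorem gG_close {n : ℕ} {F : Mon (n + 2) → ℤ} (N : NF F) (f f₀ : Mon (n + 2) → ℤ)
    (a r : ℝ) (u : Fin n → ℝ) (h : ∀ p, |(f p : ℝ) - a * f₀ p| ≤ r) :
    |gG N (cf ℝ f) 1 u - a * gG N (cf ℝ f₀) 1 u| ≤ r * ∑ p, |nu (xt N 1 u) p| := by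
  have h1 : gG N (cf ℝ f) 1 u - a * gG N (cf ℝ f₀) 1 u =
      ∑ p, ((f p : ℝ) - a * f₀ p) * nu (xt N 1 u) p := by
    unfold gG qf cf nu
    rw [Finset.mul_sum, ← Finset.sum_sub_distrib]
    refine Finset.sum_congr rfl fun p _ => ?_
    ring
  rw [h1, Finset.mul_sum]
  refine (Finset.abs_sum_le_sum_abs _ _).trans (Finset.sum_le_sum fun p _ => ?_)
  rw [abs_mul]
  exact mul_le_mul_of_nonneg_right (h p) (abs_nonneg _)

/-- the value of `F` in the coordinates of the normal form -/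
theorem qf_pbF (hPBK : T_PBK) {n : ℕ} {F : Mon (n + 2) → ℤ} (N : NF F) (c y : ℤ)
    (v : Fin n → ℤ) : qf (pb N.T F) (pt c y v) = N.mu * c * y + qf N.q (cv c v) := by
  rw [qf_int hPBK, N.hF ℤ c y v, cf_int, Int.cast_id]

theorem qf_smul_vec {s : ℕ} (f : Mon s → ℤ) (c : ℤ) (x : Fin s → ℤ) :
    qf f (fun i => c * x i) = c ^ 2 * qf f x := by
  unfold qf
  rw [Finset.mul_sum]
  refine Finset.sum_congr rfl fun p _ => ?_
  ring

theorem cv_zero_vec (n : ℕ) (c : ℤ) :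
    cv c (fun _ : Fin n => (0 : ℤ)) = fun i => c * cv 1 (fun _ : Fin n => (0 : ℤ)) i := by
  funext i
  refine Fin.cases ?_ (fun k => ?_) i
  · change c = c * 1
    rw [mul_one]
  · change (0 : ℤ) = c * 0
    rw [mul_zero]

/-- the derivative of `F` in the direction of `y` -/
theorem dq_pbF (hPBK : T_PBK) {n : ℕ} {F : Mon (n + 2) → ℤ} (N : NF F) (c y : ℤ)
    (v : Fin n → ℤ) : dq (pb N.T F) (pt c y v) 1 = N.mu * c := by
  have h1 : ∀ t : ℤ, (fun i => pt c y v i + if i = 1 then t else 0) = pt c (y + t) v := by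
    intro t
    funext i
    refine Fin.cases ?_ (fun k => ?_) i
    · rw [if_neg (by exact Fin.zero_ne_one), add_zero]
      rfl
    · refine Fin.cases ?_ (fun l => ?_) k
      · rw [if_pos (Fin.succ_zero_eq_one)]
        rfl
      · rw [if_neg (fun h => Fin.succ_ne_zero l
          (Fin.succ_injective _ (h.trans Fin.succ_zero_eq_one.symm))), add_zero]
        rfl
  have h2 := two_dq (pb N.T F) (pt c y v) 1
  rw [h1, h1, qf_pbF hPBK, qf_pbF hPBK] at h2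
  linarith

theorem pf_PO0 (hPBK : T_PBK) : T_PO0 := by
  intro n F N hn
  obtain ⟨m, rfl⟩ : ∃ m, n = m + 1 := ⟨n - 1, by omega⟩
  obtain ⟨f₀, hf₀⟩ : ∃ f₀, f₀ = pb N.Ti (g0 m) := ⟨_, rfl⟩
  have hpb : pb N.T f₀ = g0 m := by
    rw [hf₀]
    exact (hPBK ℤ _ N.Ti (g0 m) (fun _ => 0)).2.2 N.T N.h2 N.h1
  -- the points
  obtain ⟨u, hu⟩ : ∃ u : Fin (m + 1) → ℝ, u = fun i => if i = 0 then 1 else 0 := ⟨_, rfl⟩
  obtain ⟨u', hu'⟩ : ∃ u' : Fin (m + 1) → ℝ, u' = fun i => if i = 0 then -1 else 0 := ⟨_, rfl⟩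
  have hmu1 : (1 : ℝ) ≤ (N.mu : ℝ) ^ 2 := by
    have : (1 : ℤ) ≤ N.mu ^ 2 := by
      have := sq_pos_of_ne_zero N.mu0
      omega
    exact_mod_cast this
  obtain ⟨S, hS⟩ : ∃ S : ℝ, S = ∑ p, |nu (xt N 1 u) p| + ∑ p, |nu (xt N 1 u') p| := ⟨_, rfl⟩
  have hS1 : (0 : ℝ) ≤ ∑ p, |nu (xt N 1 u) p| := Finset.sum_nonneg fun _ _ => abs_nonneg _
  have hS2 : (0 : ℝ) ≤ ∑ p, |nu (xt N 1 u') p| := Finset.sum_nonneg fun _ _ => abs_nonneg _
  obtain ⟨C, hC⟩ : ∃ C : ℕ, C = 2 * ∑ p, (f₀ p).natAbs + 1 := ⟨_, rfl⟩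
  have hC1 : (1 : ℝ) ≤ C := by
    have : 1 ≤ C := by omega
    exact_mod_cast this
  -- the vector `e`
  obtain ⟨a, ha⟩ : ∃ a : ℤ, a = qf N.q (cv 1 (fun _ => 0)) := ⟨_, rfl⟩
  obtain ⟨g, hg⟩ : ∃ g : ℤ, g = (Int.gcd N.mu a : ℤ) := ⟨_, rfl⟩
  have hg0 : g ≠ 0 := by
    rw [hg]
    exact_mod_cast (Int.gcd_pos_of_ne_zero_left a N.mu0).ne'
  obtain ⟨mu', hmu'⟩ : g ∣ N.mu := hg ▸ Int.gcd_dvd_left ..
  obtain ⟨a', ha'⟩ : g ∣ a := hg ▸ Int.gcd_dvd_right ..
  have hbez : ∃ α β : ℤ, α * mu' + β * a' = 1 := by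
    refine ⟨Int.gcdA N.mu a, Int.gcdB N.mu a, ?_⟩
    have h1 := Int.gcd_eq_gcd_ab N.mu a
    rw [← hg] at h1
    have h2 : g * (Int.gcdA N.mu a * mu' + Int.gcdB N.mu a * a') = g * 1 := by
      rw [mul_one]
      calc g * (Int.gcdA N.mu a * mu' + Int.gcdB N.mu a * a')
          = (g * mu') * Int.gcdA N.mu a + (g * a') * Int.gcdB N.mu a := by ring
        _ = N.mu * Int.gcdA N.mu a + a * Int.gcdB N.mu a := by rw [← hmu', ← ha']
        _ = g := h1.symm
    exact mul_left_cancel₀ hg0 h2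
  have hmu'0 : mu' ≠ 0 := by
    intro h
    exact N.mu0 (by rw [hmu', h, mul_zero])
  obtain ⟨e, he⟩ : ∃ e : Fin (m + 1 + 2) → ℤ, e = pt mu' (-a') (fun _ => 0) := ⟨_, rfl⟩
  have he0 : e 0 = mu' := by rw [he]; rfl
  have he2 : e (0 : Fin (m + 1)).succ.succ = 0 := by rw [he]; rfl
  have hmin : jm ![pb N.T F, pb N.T f₀] e 1 (0 : Fin (m + 1)).succ.succ = N.mu * mu' * mu' := by
    change dq (pb N.T F) e 1 * dq (pb N.T f₀) e (0 : Fin (m + 1)).succ.succ -
      dq (pb N.T F) e (0 : Fin (m + 1)).succ.succ * dq (pb N.T f₀) e 1 = _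
    rw [hpb, dq_g0, dq_g0, he0, he2, he, dq_pbF hPBK]
    rw [if_neg (Fin.succ_ne_zero _).symm, if_pos rfl, if_neg (by exact Fin.zero_ne_one),
      if_neg (fun h => Fin.succ_ne_zero _
        (Fin.succ_injective _ (h.trans Fin.succ_zero_eq_one.symm)))]
    ring
  have hmin0 : N.mu * mu' * mu' ≠ 0 := mul_ne_zero (mul_ne_zero N.mu0 hmu'0) hmu'0
  have hS0 : 0 ≤ S := by rw [hS]; exact add_nonneg hS1 hS2
  have hr0 : (0 : ℝ) < 2 * C * (S + 1) := by positivity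
  refine ⟨f₀, C, 1 / (2 * C * (S + 1)), 1, 1 / (2 * C), e,
    (N.mu * mu' * mu').natAbs + mu'.natAbs, by omega, one_div_pos.2 hr0, ?_, one_pos, ?_, ?_, ?_,
    ?_, ?_, ?_, ?_⟩
  · rw [div_le_div_iff₀ hr0 two_pos]
    nlinarith
  · positivity
  · intro A U f hf
    have hf2 : ∀ p, |(f p : ℝ) - A / C * f₀ p| ≤ 1 / (2 * C * (S + 1)) * A := fun p =>
      ((Finset.mem_filter.1 hf).2 p).2
    have hA : (0 : ℝ) ≤ A := Nat.cast_nonneg A
    have hAC : (0 : ℝ) ≤ A / C := by positivity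
    have key : ∀ w : Fin (m + 1) → ℝ, ∑ p, |nu (xt N 1 w) p| ≤ S →
        |gG N (cf ℝ f) 1 w - A / C * ((N.mu : ℝ) ^ 2 * w 0)| ≤ 1 / (2 * C) * A := by
      intro w hw
      have h1 := gG_close N f f₀ (A / C) (1 / (2 * C * (S + 1)) * A) w hf2
      rw [gG_special hPBK m N f₀ hpb w] at h1
      refine h1.trans ?_
      calc 1 / (2 * C * (S + 1)) * A * ∑ p, |nu (xt N 1 w) p|
          ≤ 1 / (2 * C * (S + 1)) * A * (S + 1) :=
            mul_le_mul_of_nonneg_left (by linarith) (by positivity)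
        _ = 1 / (2 * C) * A := by
            field_simp
    refine ⟨u, u', ?_, ?_, ?_, ?_⟩
    · intro j
      rw [hu]
      beta_reduce
      split_ifs
      · rw [abs_one]
      · rw [abs_zero]; exact zero_le_one
    · intro j
      rw [hu']
      beta_reduce
      split_ifs
      · rw [abs_neg, abs_one]
      · rw [abs_zero]; exact zero_le_one
    · have h1 := key u (by rw [hS]; linarith)
      have h2 : u 0 = 1 := by rw [hu]; exact if_pos rfl
      rw [h2, mul_one] at h1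
      have h3 := (abs_le.1 h1).1
      have h4 : (A : ℝ) / C * 1 ≤ A / C * (N.mu : ℝ) ^ 2 := mul_le_mul_of_nonneg_left hmu1 hAC
      have h5 : (A : ℝ) / C = 2 * (1 / (2 * C) * A) := by
        field_simp
      linarith
    · have h1 := key u' (by rw [hS]; linarith)
      have h2 : u' 0 = -1 := by rw [hu']; exact if_pos rfl
      rw [h2] at h1
      have h3 := (abs_le.1 h1).2
      have h4 : (A : ℝ) / C * 1 ≤ A / C * (N.mu : ℝ) ^ 2 := mul_le_mul_of_nonneg_left hmu1 hAC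
      have h5 : (A : ℝ) / C = 2 * (1 / (2 * C) * A) := by
        field_simp
      linarith
  · intro p
    rw [hC]
    have h1 : (f₀ p).natAbs ≤ ∑ p, (f₀ p).natAbs :=
      Finset.single_le_sum (f := fun p => (f₀ p).natAbs) (fun _ _ => Nat.zero_le _)
        (Finset.mem_univ p)
    have h2 : |f₀ p| = ((f₀ p).natAbs : ℤ) := Int.abs_eq_natAbs _
    rw [h2]
    omega
  · obtain ⟨α, β, hab⟩ := hbez
    refine ⟨pt α (-β) (fun _ => 0), ?_⟩
    rw [Fin.sum_univ_succ, Fin.sum_univ_succ, Finset.sum_eq_zero, he]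
    · change α * mu' + (-β * -a' + 0) = 1
      linarith
    · intro i _
      exact zero_mul _
  · rw [he, qf_pbF hPBK, cv_zero_vec, qf_smul_vec, ← ha, hmu', ha']
    ring
  · rw [hpb, ← cf_int (g0 m), qf_g0, he2, mul_zero]
  · intro p hp
    have hpow : ∀ (k : ℕ) (x : ℤ), x ≠ 0 → x.natAbs ≤ k → ¬ (p : ℤ) ^ k ∣ x := by
      intro k x hx hk hd
      have h1 : p ^ k ∣ x.natAbs := by
        have := Int.natAbs_dvd_natAbs.2 hd
        rwa [Int.natAbs_pow, Int.natAbs_natCast] at this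
      have h2 := Nat.le_of_dvd (Int.natAbs_pos.2 hx) h1
      have h3 : k < p ^ k := Nat.lt_pow_self hp.one_lt
      omega
    refine ⟨?_, 1, (0 : Fin (m + 1)).succ.succ, ?_⟩
    · rw [he0]
      exact hpow _ _ hmu'0 (by omega)
    · rw [hmin]
      exact hpow _ _ hmin0 (by omega)

end Pool.Agent.H80.HFQ
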